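import Mathlib

set_option autoImplicit false

/-!
# Straight-line plane drawings from a certificate with natural coordinates
-/

namespace Pool.Agent.H628Z.Draw

/-- An edge with the coordinates of its two ends. -/
structure Sg where
  u : ℕ
  v : ℕ
  ax : ℕ
  ay : ℕ
  bx : ℕ
  b2 : ℕ

/-- Positive part of the orientation determinant. -/
def oP (e : Sg) (x y : ℕ) : ℕ := e.ax * e.b2 + e.bx * y + x * e.ay

/-- Negative part of the orientation determinant. -/
def oN (e : Sg) (x y : ℕ) : ℕ := e.ay * e.bx + e.b2 * x + y * e.ax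

/-- The comparison behind `side`. -/
def cmp4 (p1 q1 p2 q2 : ℕ) : Bool :=
  (Nat.ble q1 p1 && Nat.ble q2 p2 && Nat.blt (q1 + q2) (p1 + p2)) ||
  (Nat.ble p1 q1 && Nat.ble p2 q2 && Nat.blt (p1 + p2) (q1 + q2))

/-- The open segment `f` lies strictly on one side of the line through `e`. -/
def side (e f : Sg) : Bool :=
  cmp4 (oP e f.ax f.ay) (oN e f.ax f.ay) (oP e f.bx f.b2) (oN e f.bx f.b2)

/-- The point of the segment with parameter `t`. -/
def pt (e : Sg) (t : ℝ) : ℝ × ℝ :=
  ((1 - t) * e.ax + t * e.bx, (1 - t) * e.ay + t * e.b2)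

theorem side_ne (e f : Sg) (h : side e f = true) (t s : ℝ) (h0 : 0 < s) (h1 : s < 1) :
    pt e t ≠ pt f s := by
  intro hp
  have hx : (1 - t) * e.ax + t * e.bx = (1 - s) * (f.ax : ℝ) + s * f.bx := congrArg Prod.fst hp
  have hy : (1 - t) * e.ay + t * e.b2 = (1 - s) * (f.ay : ℝ) + s * f.b2 := congrArg Prod.snd hp
  have key : (1 - s) * ((oP e f.ax f.ay : ℝ) - oN e f.ax f.ay) +
      s * ((oP e f.bx f.b2 : ℝ) - oN e f.bx f.b2) = 0 := by
    simp only [oP, oN]
    push_cast
    linear_combination (-((e.ay : ℝ) - e.b2)) * hx - ((e.bx : ℝ) - e.ax) * hy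
  have hs : 0 < 1 - s := by linarith
  simp only [side, cmp4, Bool.or_eq_true, Bool.and_eq_true, Nat.ble_eq, Nat.blt_eq] at h
  generalize oP e f.ax f.ay = p1 at h key
  generalize oN e f.ax f.ay = q1 at h key
  generalize oP e f.bx f.b2 = p2 at h key
  generalize oN e f.bx f.b2 = q2 at h key
  rcases h with ⟨⟨a, b⟩, c⟩ | ⟨⟨a, b⟩, c⟩
  · have a' : (q1 : ℝ) ≤ p1 := by exact_mod_cast a
    have b' : (q2 : ℝ) ≤ p2 := by exact_mod_cast b
    have c' : (q1 : ℝ) + q2 < p1 + p2 := by exact_mod_cast c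
    have e1 := mul_nonneg hs.le (sub_nonneg.2 a')
    have e2 := mul_nonneg h0.le (sub_nonneg.2 b')
    have z1 : (1 - s) * ((p1 : ℝ) - q1) = 0 := by linarith
    have z2 : s * ((p2 : ℝ) - q2) = 0 := by linarith
    rcases mul_eq_zero.1 z1 with z1 | z1
    · linarith
    · rcases mul_eq_zero.1 z2 with z2 | z2 <;> linarith
  · have a' : (p1 : ℝ) ≤ q1 := by exact_mod_cast a
    have b' : (p2 : ℝ) ≤ q2 := by exact_mod_cast b
    have c' : (p1 : ℝ) + p2 < q1 + q2 := by exact_mod_cast c
    have e1 := mul_nonneg hs.le (sub_nonneg.2 a')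
    have e2 := mul_nonneg h0.le (sub_nonneg.2 b')
    have z1 : (1 - s) * ((q1 : ℝ) - p1) = 0 := by linarith
    have z2 : s * ((q2 : ℝ) - p2) = 0 := by linarith
    rcases mul_eq_zero.1 z1 with z1 | z1
    · linarith
    · rcases mul_eq_zero.1 z2 with z2 | z2 <;> linarith

theorem off_ne (e : Sg) (x y : ℕ) (h : oP e x y ≠ oN e x y) (t : ℝ) :
    pt e t ≠ ((x : ℝ), (y : ℝ)) := by
  intro hp
  have hx : (1 - t) * e.ax + t * e.bx = (x : ℝ) := congrArg Prod.fst hp
  have hy : (1 - t) * e.ay + t * e.b2 = (y : ℝ) := congrArg Prod.snd hp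
  apply h
  have key : (oP e x y : ℝ) = oN e x y := by
    simp only [oP, oN]
    push_cast
    linear_combination (-((e.ay : ℝ) - e.b2)) * hx - ((e.bx : ℝ) - e.ax) * hy
  exact_mod_cast key

/-- The graph on `Fin n` whose edges are listed in `S`. -/
def graph (n : ℕ) (S : List Sg) : SimpleGraph (Fin n) where
  Adj a b := a ≠ b ∧ ∃ e ∈ S, (e.u = a ∧ e.v = b) ∨ (e.u = b ∧ e.v = a)
  symm := ⟨fun _ _ h => ⟨h.1.symm, h.2.imp fun _ he => ⟨he.1, he.2.symm⟩⟩⟩
  loopless := ⟨fun _ h => h.1 rfl⟩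

/-- The coordinates stored in the edges are the coordinates of their ends. -/
def okC (cx cy : ℕ → ℕ) (S : List Sg) : Bool :=
  S.all fun e => e.ax == cx e.u && e.ay == cy e.u && e.bx == cx e.v && e.b2 == cy e.v

/-- Different vertices have different positions. -/
def okI (n : ℕ) (cx cy : ℕ → ℕ) : Bool :=
  (List.range n).all fun a => (List.range a).all fun b => !(cx a == cx b && cy a == cy b)

/-- No vertex lies on the line through the edge, apart from its ends. -/
def okV1 (n : ℕ) (cx cy : ℕ → ℕ) (e : Sg) : Bool :=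
  (List.range n).all fun w =>
    w == e.u || w == e.v || !(oP e (cx w) (cy w) == oN e (cx w) (cy w))

/-- The edge does not cross the other edges. -/
def okE1 (S : List Sg) (e : Sg) : Bool :=
  S.all fun f => (e.u == f.u && e.v == f.v) || side e f || side f e

theorem drawing (n : ℕ) (cx cy : ℕ → ℕ) (S : List Sg) (hC : okC cx cy S = true)
    (hI : okI n cx cy = true) (hV : ∀ e ∈ S, okV1 n cx cy e = true)
    (hE : ∀ e ∈ S, okE1 S e = true) :
    ∃ p : Fin n → ℝ × ℝ, Function.Injective p ∧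
      ∃ γ : Fin n → Fin n → unitInterval → ℝ × ℝ,
        (∀ u v, (graph n S).Adj u v →
          Continuous (γ u v) ∧ γ u v 0 = p u ∧ γ u v 1 = p v ∧
          ∀ t : unitInterval, t ≠ 0 → t ≠ 1 → ∀ w, γ u v t ≠ p w) ∧
        (∀ u v u' v', (graph n S).Adj u v → (graph n S).Adj u' v' → s(u, v) ≠ s(u', v') →
          ∀ t t' : unitInterval, t ≠ 0 → t ≠ 1 → t' ≠ 0 → t' ≠ 1 →
            γ u v t ≠ γ u' v' t') := by
  let p : Fin n → ℝ × ℝ := fun a => ((cx a : ℝ), (cy a : ℝ))
  have hinj : Function.Injective p := by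
    have aux : ∀ a b : Fin n, (b : ℕ) < a → p a ≠ p b := by
      intro a b hab hp
      have g1 : (cx a : ℝ) = cx b := congrArg Prod.fst hp
      have g2 : (cy a : ℝ) = cy b := congrArg Prod.snd hp
      have h1 : cx a = cx b := by exact_mod_cast g1
      have h2 : cy a = cy b := by exact_mod_cast g2
      have := List.all_eq_true.1 (List.all_eq_true.1 hI a (List.mem_range.2 a.2)) b
        (List.mem_range.2 hab)
      simp [h1, h2] at this
    intro a b hp
    rcases lt_trichotomy (a : ℕ) b with h | h | h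
    · exact absurd hp.symm (aux b a h)
    · exact Fin.ext h
    · exact absurd hp (aux a b h)
  let γ : Fin n → Fin n → unitInterval → ℝ × ℝ := fun a b t =>
    ((1 - (t : ℝ)) * cx a + t * cx b, (1 - (t : ℝ)) * cy a + t * cy b)
  have hpos : ∀ t : unitInterval, t ≠ 0 → 0 < (t : ℝ) := fun t ht =>
    lt_of_le_of_ne t.2.1 (fun h => ht (Subtype.ext h.symm))
  have hlt : ∀ t : unitInterval, t ≠ 1 → (t : ℝ) < 1 := fun t ht =>
    lt_of_le_of_ne t.2.2 (fun h => ht (Subtype.ext h))
  have rep : ∀ a b : Fin n, (graph n S).Adj a b → ∃ e ∈ S,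
      ((e.u = a ∧ e.v = b) ∨ (e.u = b ∧ e.v = a)) ∧
      ∀ t : unitInterval, t ≠ 0 → t ≠ 1 → ∃ s : ℝ, 0 < s ∧ s < 1 ∧ γ a b t = pt e s := by
    rintro a b ⟨-, e, he, h⟩
    have hc := List.all_eq_true.1 hC e he
    simp only [Bool.and_eq_true, beq_iff_eq] at hc
    obtain ⟨⟨⟨c1, c2⟩, c3⟩, c4⟩ := hc
    refine ⟨e, he, h, fun t h0 h1 => ?_⟩
    rcases h with ⟨hu, hv⟩ | ⟨hu, hv⟩
    · refine ⟨t, hpos t h0, hlt t h1, ?_⟩
      simp only [γ, pt, c1, c2, c3, c4, hu, hv]
    · refine ⟨1 - t, by linarith [hlt t h1], by linarith [hpos t h0], ?_⟩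
      simp only [γ, pt, c1, c2, c3, c4, hu, hv]
      apply Prod.ext <;> simp only <;> ring
  refine ⟨p, hinj, γ, ?_, ?_⟩
  · intro u v huv
    refine ⟨by fun_prop, by simp [γ, p], by simp [γ, p], ?_⟩
    intro t h0 h1 w hw
    have hne : p u ≠ p v := fun h => huv.1 (hinj h)
    have hx : (1 - (t : ℝ)) * cx u + t * cx v = cx w := congrArg Prod.fst hw
    have hy : (1 - (t : ℝ)) * cy u + t * cy v = cy w := congrArg Prod.snd hw
    by_cases hwu : w = u
    · subst hwu
      apply hne
      have t0 := (hpos t h0).ne'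
      apply Prod.ext
      · apply mul_left_cancel₀ t0
        simp only [p]
        linarith
      · apply mul_left_cancel₀ t0
        simp only [p]
        linarith
    by_cases hwv : w = v
    · subst hwv
      apply hne
      have t0 : (1 - (t : ℝ)) ≠ 0 := by linarith [hlt t h1]
      apply Prod.ext
      · apply mul_left_cancel₀ t0
        simp only [p]
        linarith
      · apply mul_left_cancel₀ t0
        simp only [p]
        linarith
    obtain ⟨e, he, hends, hs⟩ := rep u v huv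
    obtain ⟨s, -, -, hs⟩ := hs t h0 h1
    have hv := List.all_eq_true.1 (hV e he) w (List.mem_range.2 w.2)
    simp only [Bool.or_eq_true, beq_iff_eq, Bool.not_eq_true', beq_eq_false_iff_ne] at hv
    have n1 : (w : ℕ) ≠ u := fun h => hwu (Fin.ext h)
    have n2 : (w : ℕ) ≠ v := fun h => hwv (Fin.ext h)
    rcases hv with (hv | hv) | hv
    · rcases hends with h | h <;> omega
    · rcases hends with h | h <;> omega
    · exact off_ne e _ _ hv s (hs ▸ hw)
  · intro u v u' v' h h' hne t t' h0 h1 h0' h1' hq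
    obtain ⟨e, he, hends, hs⟩ := rep u v h
    obtain ⟨f, hf, hends', hs'⟩ := rep u' v' h'
    obtain ⟨s, s0, s1, hs⟩ := hs t h0 h1
    obtain ⟨r, r0, r1, hr⟩ := hs' t' h0' h1'
    rw [hs, hr] at hq
    have hv := List.all_eq_true.1 (hE e he) f hf
    simp only [Bool.or_eq_true, Bool.and_eq_true, beq_iff_eq] at hv
    rcases hv with (⟨a, b⟩ | hv) | hv
    · apply hne
      rw [Sym2.eq_iff]
      simp only [Fin.ext_iff]
      omega
    · exact side_ne e f hv s r r0 r1 hq
    · exact side_ne f e hv r s s0 s1 hq.symm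

end Pool.Agent.H628Z.Draw
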