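import Pool.Agent.H628Z.EmuData

set_option autoImplicit false

namespace Pool.Agent.H628Z.Emu

open Pool.Agent.H628Z.Draw

/-- The vertex of the target graph with a given label. -/
def toS (a : ℕ) : Fin 4 ⊕ Fin 4 :=
  if a < 4 then Sum.inl (Fin.ofNat 4 a) else Sum.inr (Fin.ofNat 4 a)

theorem adjL_iff (a b : ℕ) (ha : a < 8) (hb : b < 8) :
    adjL a b = true ↔ ((completeBipartiteGraph (Fin 4) (Fin 4)).Adj (toS a) (toS b) ∧
      s(toS a, toS b) ≠ s(Sum.inl 0, Sum.inr 0)) := by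
  simp only [completeBipartiteGraph_adj, ne_eq, Sym2.eq_iff]
  interval_cases a <;> interval_cases b <;> decide

theorem toS_surj (w : Fin 4 ⊕ Fin 4) : ∃ a, a < 8 ∧ toS a = w := by
  revert w
  have : ∀ w : Fin 4 ⊕ Fin 4, ∃ a : Fin 8, toS a = w := by decide
  intro w
  obtain ⟨a, ha⟩ := this w
  exact ⟨a, a.2, ha⟩

theorem lb_lt (v : Fin 182) : lb v < 8 := by
  have := List.all_eq_true.1 hL v (List.mem_range.2 v.2)
  simpa using this

theorem rng {e : Sg} (he : e ∈ S) : e.u < e.v ∧ e.v < 182 := by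
  have := List.all_eq_true.1 hR e he
  simpa using this

theorem adjL_symm (a b : ℕ) : adjL a b = adjL b a := by
  simp only [adjL]
  rw [Bool.or_comm (Nat.blt a 4 && _), Bool.or_comm (a == 0 && _), Bool.and_comm (a == 4),
    Bool.and_comm (a == 0)]

theorem surj : Function.Surjective fun v : Fin 182 => toS (lb v) := by
  intro w
  obtain ⟨a, ha, rfl⟩ := toS_surj w
  have := List.all_eq_true.1 hO a (List.mem_range.2 ha)
  obtain ⟨v, hv, h⟩ := List.any_eq_true.1 this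
  exact ⟨⟨v, List.mem_range.1 hv⟩, by simp only [beq_iff_eq.1 h]⟩

theorem hom (u v : Fin 182) (h : (graph 182 S).Adj u v) : adjL (lb u) (lb v) = true := by
  obtain ⟨-, e, he, h⟩ := h
  have := List.all_eq_true.1 hH e he
  rcases h with ⟨a, b⟩ | ⟨a, b⟩
  · rwa [a, b] at this
  · rw [a, b] at this
    rwa [adjL_symm]

theorem loc (v : Fin 182) (a : ℕ) (ha : a < 8) (h : adjL (lb v) a = true) :
    ∃ u, (graph 182 S).Adj v u ∧ lb u = a := by
  have h1 := List.all_eq_true.1 (List.all_eq_true.1 hS v (List.mem_range.2 v.2)) a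
    (List.mem_range.2 ha)
  rw [h] at h1
  simp only [Bool.not_true, Bool.false_or, List.contains_iff_mem, nbL, List.mem_append,
    List.mem_map, List.mem_filter, beq_iff_eq] at h1
  rcases h1 with ⟨e, ⟨he, hv⟩, hl⟩ | ⟨e, ⟨he, hv⟩, hl⟩
  · have r := rng he
    refine ⟨⟨e.v, r.2⟩, ⟨?_, e, he, Or.inl ⟨hv, rfl⟩⟩, hl⟩
    intro hh
    have := congrArg Fin.val hh
    simp only at this
    omega
  · have r := rng he
    refine ⟨⟨e.u, r.1.trans r.2⟩, ⟨?_, e, he, Or.inr ⟨rfl, hv⟩⟩, hl⟩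
    intro hh
    have := congrArg Fin.val hh
    simp only at this
    omega

theorem main :
    ∃ n : ℕ, ∃ H : SimpleGraph (Fin n),
      (∃ p : Fin n → ℝ × ℝ, Function.Injective p ∧
        ∃ γ : Fin n → Fin n → unitInterval → ℝ × ℝ,
          (∀ u v, H.Adj u v →
            Continuous (γ u v) ∧ γ u v 0 = p u ∧ γ u v 1 = p v ∧
            ∀ t : unitInterval, t ≠ 0 → t ≠ 1 → ∀ w, γ u v t ≠ p w) ∧
          (∀ u v u' v', H.Adj u v → H.Adj u' v' → s(u, v) ≠ s(u', v') →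
            ∀ t t' : unitInterval, t ≠ 0 → t ≠ 1 → t' ≠ 0 → t' ≠ 1 →
              γ u v t ≠ γ u' v' t')) ∧
      ∃ φ : Fin n → Fin 4 ⊕ Fin 4,
        Function.Surjective φ ∧
        (∀ u v, H.Adj u v →
          ((completeBipartiteGraph (Fin 4) (Fin 4)).Adj (φ u) (φ v) ∧
            s(φ u, φ v) ≠ s(Sum.inl 0, Sum.inr 0))) ∧
        (∀ v, ∀ w : Fin 4 ⊕ Fin 4,
          ((completeBipartiteGraph (Fin 4) (Fin 4)).Adj (φ v) w ∧
            s(φ v, w) ≠ s(Sum.inl 0, Sum.inr 0)) →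
          ∃ u, H.Adj v u ∧ φ u = w) := by
  refine ⟨182, graph 182 S, drawing 182 cx cy S hC hI (List.all_eq_true.1 hV)
    (List.all_eq_true.1 hE), fun v => toS (lb v), surj, ?_, ?_⟩
  · intro u v h
    exact (adjL_iff _ _ (lb_lt u) (lb_lt v)).1 (hom u v h)
  · intro v w h
    obtain ⟨a, ha, rfl⟩ := toS_surj w
    obtain ⟨u, hu, hl⟩ := loc v a ha ((adjL_iff _ _ (lb_lt v) ha).2 h)
    exact ⟨u, hu, by simp only [hl]⟩

end Pool.Agent.H628Z.Emu
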